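import Mathlib

/-!
Five unit spheres in `ℝ³` every four of which have a common point have a common point (Maehara's
conjecture in dimension three).

Let `c 0, …, c 4` be the centres, `x j` a common point of the spheres `S k`, `k ≠ j`, and
`π j = |x j - c j|² - 1`.  Suppose all `π j ≠ 0` and put `u j = 1 / π j`.

* `bilin`: inverting a `5 × 5` matrix gives all the identities
  `∑ u k = 0`, `∑ u k |x k - y|² |c k - z|² = 1 + |z - y|²`, ...
* `two_neg`: at least two of the `u j` are negative, as `∑ u k |x k + c k - w|² = -1` for all `w`.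
* `star`: `1 - 8 (u 0 + u 1) = 4 u 0 u 1 (X C - 4 C - 4 X)` for `X = |x 0 - x 1|²`, `C = |c 0 - c 1|²`;
  this is the identity `(tr M)² = 4 e₂(M)` for the product `M` of two symmetric `3 × 3` matrices with
  zero diagonal, together with `e₂(P Rᵀ) = e₂(Rᵀ P)`.
* As `0 ≤ X, C ≤ 4`, the identity is impossible for `u 0, u 1 < 0`.
-/

set_option autoImplicit false

namespace Pool.Agent.Q8.Maehara

open Matrix

/-- squared distance in coordinates -/
def sqd (x y : Fin 3 → ℝ) : ℝ := (x 0 - y 0) ^ 2 + (x 1 - y 1) ^ 2 + (x 2 - y 2) ^ 2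

theorem sqd_comm (x y : Fin 3 → ℝ) : sqd x y = sqd y x := by unfold sqd; ring

theorem sqd_self (x : Fin 3 → ℝ) : sqd x x = 0 := by unfold sqd; ring

theorem sqd_nonneg (x y : Fin 3 → ℝ) : 0 ≤ sqd x y := by unfold sqd; positivity

/-- two points of a unit sphere have squared distance at most `4`. -/
theorem sqd_le_four (x y c : Fin 3 → ℝ) (hx : sqd x c = 1) (hy : sqd y c = 1) : sqd x y ≤ 4 := by
  have h : sqd x y + ((x 0 + y 0 - 2 * c 0) ^ 2 + (x 1 + y 1 - 2 * c 1) ^ 2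
      + (x 2 + y 2 - 2 * c 2) ^ 2) = 2 * sqd x c + 2 * sqd y c := by
    unfold sqd; ring
  have h2 : 0 ≤ (x 0 + y 0 - 2 * c 0) ^ 2 + (x 1 + y 1 - 2 * c 1) ^ 2
      + (x 2 + y 2 - 2 * c 2) ^ 2 := by positivity
  rw [hx, hy] at h
  linarith

/-- rows `(|x k|², x k, 1)` -/
def XM (x : Fin 5 → Fin 3 → ℝ) : Matrix (Fin 5) (Fin 5) ℝ :=
  Matrix.of fun k => ![x k 0 ^ 2 + x k 1 ^ 2 + x k 2 ^ 2, x k 0, x k 1, x k 2, 1]

/-- rows `(1, -2 c j, |c j|² - 1)` -/
def SM (c : Fin 5 → Fin 3 → ℝ) : Matrix (Fin 5) (Fin 5) ℝ :=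
  Matrix.of fun j => ![1, -2 * c j 0, -2 * c j 1, -2 * c j 2,
    c j 0 ^ 2 + c j 1 ^ 2 + c j 2 ^ 2 - 1]

theorem SM_mul_XM (x c : Fin 5 → Fin 3 → ℝ) (j k : Fin 5) :
    (SM c * (XM x)ᵀ) j k = sqd (x k) (c j) - 1 := by
  simp only [Matrix.mul_apply, Fin.sum_univ_five, SM, XM, Matrix.transpose_apply, Matrix.of_apply]
  simp only [Matrix.cons_val]
  unfold sqd
  ring

theorem inverse (x c : Fin 5 → Fin 3 → ℝ) (u : Fin 5 → ℝ)
    (hu : ∀ j, u j * (sqd (x j) (c j) - 1) = 1)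
    (h : ∀ j k, j ≠ k → sqd (x k) (c j) = 1) (i i' : Fin 5) :
    ∑ k, XM x k i * (u k * SM c k i') = if i = i' then 1 else 0 := by
  have h1 : (Matrix.diagonal u * SM c) * (XM x)ᵀ = 1 := by
    ext j k
    rw [Matrix.mul_assoc, Matrix.diagonal_mul, SM_mul_XM]
    by_cases hjk : j = k
    · subst hjk
      rw [Matrix.one_apply_eq, hu]
    · rw [Matrix.one_apply_ne hjk, h j k hjk]
      ring
  have h2 : (XM x)ᵀ * (Matrix.diagonal u * SM c) = 1 := mul_eq_one_comm.mp h1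
  have h3 := congrFun (congrFun h2 i) i'
  rw [Matrix.mul_apply, Matrix.one_apply] at h3
  rw [← h3]
  apply Finset.sum_congr rfl
  intro k _
  rw [Matrix.diagonal_mul, Matrix.transpose_apply]

section
variable (x c : Fin 5 → Fin 3 → ℝ) (u : Fin 5 → ℝ)
    (hu : ∀ j, u j * (sqd (x j) (c j) - 1) = 1)
    (h : ∀ j k, j ≠ k → sqd (x k) (c j) = 1)
include hu h

theorem sum_u : ∑ k, u k = 0 := by
  have := inverse x c u hu h 4 0
  simpa [XM, SM] using this

theorem sum_ux (y : Fin 3 → ℝ) : ∑ k, u k * sqd (x k) y = 1 := by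
  have h0 := inverse x c u hu h 0 0
  have h1 := inverse x c u hu h 1 0
  have h2 := inverse x c u hu h 2 0
  have h3 := inverse x c u hu h 3 0
  have h4 := inverse x c u hu h 4 0
  simp only [Fin.sum_univ_five, SM, XM, Matrix.of_apply, Matrix.cons_val, reduceIte,
    Fin.reduceEq] at h0 h1 h2 h3 h4 ⊢
  unfold sqd
  linear_combination h0 - 2 * y 0 * h1 - 2 * y 1 * h2 - 2 * y 2 * h3
    + (y 0 ^ 2 + y 1 ^ 2 + y 2 ^ 2) * h4

theorem sum_uc (z : Fin 3 → ℝ) : ∑ k, u k * sqd (c k) z = 1 := by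
  have h0 := inverse x c u hu h 4 0
  have h1 := inverse x c u hu h 4 1
  have h2 := inverse x c u hu h 4 2
  have h3 := inverse x c u hu h 4 3
  have h4 := inverse x c u hu h 4 4
  simp only [Fin.sum_univ_five, SM, XM, Matrix.of_apply, Matrix.cons_val, reduceIte,
    Fin.reduceEq] at h0 h1 h2 h3 h4 ⊢
  unfold sqd
  linear_combination h4 + z 0 * h1 + z 1 * h2 + z 2 * h3
    + (1 + z 0 ^ 2 + z 1 ^ 2 + z 2 ^ 2) * h0

theorem sum_uxc (y z : Fin 3 → ℝ) : ∑ k, u k * sqd (x k) y * sqd (c k) z = 1 + sqd z y := by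
  have H := fun i i' => inverse x c u hu h i i'
  have e00 := H 0 0
  have e01 := H 0 1
  have e02 := H 0 2
  have e03 := H 0 3
  have e04 := H 0 4
  have e10 := H 1 0
  have e11 := H 1 1
  have e12 := H 1 2
  have e13 := H 1 3
  have e14 := H 1 4
  have e20 := H 2 0
  have e21 := H 2 1
  have e22 := H 2 2
  have e23 := H 2 3
  have e24 := H 2 4
  have e30 := H 3 0
  have e31 := H 3 1
  have e32 := H 3 2
  have e33 := H 3 3
  have e34 := H 3 4
  have e40 := H 4 0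
  have e41 := H 4 1
  have e42 := H 4 2
  have e43 := H 4 3
  have e44 := H 4 4
  clear H
  simp only [Fin.sum_univ_five, SM, XM, Matrix.of_apply, Matrix.cons_val, reduceIte,
    Fin.reduceEq] at *
  unfold sqd
  linear_combination
    (1 + z 0 ^ 2 + z 1 ^ 2 + z 2 ^ 2) * e00 + z 0 * e01 + z 1 * e02 + z 2 * e03 + e04
    - 2 * y 0 * ((1 + z 0 ^ 2 + z 1 ^ 2 + z 2 ^ 2) * e10 + z 0 * e11 + z 1 * e12 + z 2 * e13 + e14)
    - 2 * y 1 * ((1 + z 0 ^ 2 + z 1 ^ 2 + z 2 ^ 2) * e20 + z 0 * e21 + z 1 * e22 + z 2 * e23 + e24)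
    - 2 * y 2 * ((1 + z 0 ^ 2 + z 1 ^ 2 + z 2 ^ 2) * e30 + z 0 * e31 + z 1 * e32 + z 2 * e33 + e34)
    + (y 0 ^ 2 + y 1 ^ 2 + y 2 ^ 2) *
      ((1 + z 0 ^ 2 + z 1 ^ 2 + z 2 ^ 2) * e40 + z 0 * e41 + z 1 * e42 + z 2 * e43 + e44)

/-- `∑ u k |x k + c k - w|² = -1`. -/
theorem sum_upc (w : Fin 3 → ℝ) :
    ∑ k, u k * ((x k 0 + c k 0 - w 0) ^ 2 + (x k 1 + c k 1 - w 1) ^ 2
      + (x k 2 + c k 2 - w 2) ^ 2) = -1 := by
  have a0 := sum_u x c u hu h
  have a1 := sum_ux x c u hu h w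
  have a2 := sum_uc x c u hu h w
  have b1 := sum_ux x c u hu h 0
  have b2 := sum_uc x c u hu h 0
  have d0 := hu 0
  have d1 := hu 1
  have d2 := hu 2
  have d3 := hu 3
  have d4 := hu 4
  simp only [Fin.sum_univ_five, sqd, Pi.zero_apply] at *
  linear_combination a1 + a2 + b1 + b2 - a0 - (d0 + d1 + d2 + d3 + d4)
    - (w 0 ^ 2 + w 1 ^ 2 + w 2 ^ 2) * a0

/-- at least two of the `u j` are negative. -/
theorem two_neg : ∃ i j, i ≠ j ∧ u i < 0 ∧ u j < 0 := by
  have hne : ∀ j, u j ≠ 0 := by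
    intro j hj
    have := hu j
    rw [hj] at this
    norm_num at this
  obtain ⟨i, hi⟩ : ∃ i, u i < 0 := by
    by_contra hcon
    push Not at hcon
    have hpos : 0 < ∑ k, u k := by
      apply Finset.sum_pos
      · intro k _
        exact lt_of_le_of_ne (hcon k) (hne k).symm
      · exact Finset.univ_nonempty
    rw [sum_u x c u hu h] at hpos
    exact lt_irrefl _ hpos
  by_contra hcon
  push Not at hcon
  have hge : ∀ j, j ≠ i → 0 ≤ u j := fun j hj => hcon i j (Ne.symm hj) hi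
  have hs := sum_upc x c u hu h (fun t => x i t + c i t)
  have : 0 ≤ ∑ k, u k * ((x k 0 + c k 0 - (x i 0 + c i 0)) ^ 2
      + (x k 1 + c k 1 - (x i 1 + c i 1)) ^ 2
      + (x k 2 + c k 2 - (x i 2 + c i 2)) ^ 2) := by
    apply Finset.sum_nonneg
    intro k _
    by_cases hk : k = i
    · subst hk
      simp
    · exact mul_nonneg (hge k hk) (by positivity)
  rw [hs] at this
  linarith

end

/-- The identity `(tr M)² = 4 e₂(M)` for `M = 1 - P Rᵀ` a product of two symmetric matrices with zero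
diagonal, expressed through `Rᵀ P`. -/
theorem closure (a b c a' b' c' p11 p12 p13 p21 p22 p23 p31 p32 p33
    r11 r12 r13 r21 r22 r23 r31 r32 r33 : ℝ)
    (h11 : c * c' + b * b' = 1 - (p11 * r11 + p12 * r12 + p13 * r13))
    (h12 : b * a' = -(p11 * r21 + p12 * r22 + p13 * r23))
    (h13 : c * a' = -(p11 * r31 + p12 * r32 + p13 * r33))
    (h21 : a * b' = -(p21 * r11 + p22 * r12 + p23 * r13))
    (h22 : c * c' + a * a' = 1 - (p21 * r21 + p22 * r22 + p23 * r23))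
    (h23 : c * b' = -(p21 * r31 + p22 * r32 + p23 * r33))
    (h31 : a * c' = -(p31 * r11 + p32 * r12 + p33 * r13))
    (h32 : b * c' = -(p31 * r21 + p32 * r22 + p33 * r23))
    (h33 : b * b' + a * a' = 1 - (p31 * r31 + p32 * r32 + p33 * r33))
    (y11 y12 y13 y21 y22 y23 y31 y32 y33 : ℝ)
    (k11 : r11 * p11 + r21 * p21 + r31 * p31 = y11)
    (k12 : r11 * p12 + r21 * p22 + r31 * p32 = y12)
    (k13 : r11 * p13 + r21 * p23 + r31 * p33 = y13)
    (k21 : r12 * p11 + r22 * p21 + r32 * p31 = y21)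
    (k22 : r12 * p12 + r22 * p22 + r32 * p32 = y22)
    (k23 : r12 * p13 + r22 * p23 + r32 * p33 = y23)
    (k31 : r13 * p11 + r23 * p21 + r33 * p31 = y31)
    (k32 : r13 * p12 + r23 * p22 + r33 * p32 = y32)
    (k33 : r13 * p13 + r23 * p23 + r33 * p33 = y33) :
    (3 - (y11 + y22 + y33)) ^ 2 = 4 * (3 - 2 * (y11 + y22 + y33)
      + (y11 * y22 - y12 * y21 + (y11 * y33 - y13 * y31) + (y22 * y33 - y23 * y32))) := by
  have hA : (3 - ((p11 * r11 + p12 * r12 + p13 * r13) + (p21 * r21 + p22 * r22 + p23 * r23)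
      + (p31 * r31 + p32 * r32 + p33 * r33))) ^ 2
      = 4 * ((1 - (p11 * r11 + p12 * r12 + p13 * r13)) * (1 - (p21 * r21 + p22 * r22 + p23 * r23))
        - (-(p11 * r21 + p12 * r22 + p13 * r23)) * (-(p21 * r11 + p22 * r12 + p23 * r13))
        + ((1 - (p11 * r11 + p12 * r12 + p13 * r13)) * (1 - (p31 * r31 + p32 * r32 + p33 * r33))
        - (-(p11 * r31 + p12 * r32 + p13 * r33)) * (-(p31 * r11 + p32 * r12 + p33 * r13)))
        + ((1 - (p21 * r21 + p22 * r22 + p23 * r23)) * (1 - (p31 * r31 + p32 * r32 + p33 * r33))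
        - (-(p21 * r31 + p22 * r32 + p23 * r33)) * (-(p31 * r21 + p32 * r22 + p33 * r23)))) := by
    have e : (3 - ((p11 * r11 + p12 * r12 + p13 * r13) + (p21 * r21 + p22 * r22 + p23 * r23)
      + (p31 * r31 + p32 * r32 + p33 * r33)))
      = (1 - (p11 * r11 + p12 * r12 + p13 * r13)) + (1 - (p21 * r21 + p22 * r22 + p23 * r23))
        + (1 - (p31 * r31 + p32 * r32 + p33 * r33)) := by ring
    rw [e, ← h11, ← h22, ← h33, ← h12, ← h13, ← h21, ← h23, ← h31, ← h32]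
    ring
  rw [← k11, ← k12, ← k13, ← k21, ← k22, ← k23, ← k31, ← k32, ← k33]
  linear_combination hA

section
variable (x c : Fin 5 → Fin 3 → ℝ) (u : Fin 5 → ℝ)
    (hu : ∀ j, u j * (sqd (x j) (c j) - 1) = 1)
    (h : ∀ j k, j ≠ k → sqd (x k) (c j) = 1)
include hu h

theorem star : 1 - 8 * (u 0 + u 1) = 4 * (u 0 * u 1) *
    (sqd (x 0) (x 1) * sqd (c 0) (c 1) - 4 * sqd (c 0) (c 1) - 4 * sqd (x 0) (x 1)) := by
  have cx : ∀ j l, sqd (x j) (x l) = sqd (x l) (x j) := fun j l => sqd_comm _ _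
  have cc : ∀ j l, sqd (c j) (c l) = sqd (c l) (c j) := fun j l => sqd_comm _ _
  have R : ∀ j l, ∑ k, u k * sqd (x k) (x j) * sqd (c k) (c l) = 1 + sqd (x j) (c l) := by
    intro j l
    rw [sum_uxc x c u hu h (x j) (c l), sqd_comm]
  have R' : ∀ j l, j ≠ l → ∑ k, u k * sqd (x k) (x j) * sqd (c k) (c l) = 2 := by
    intro j l hjl
    rw [R j l, h l j (Ne.symm hjl)]
    norm_num
  have Rd : ∀ j, u j * ∑ k, u k * sqd (x k) (x j) * sqd (c k) (c j) = 2 * u j + 1 := by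
    intro j
    rw [R j j]
    linear_combination hu j
  have A := sum_u x c u hu h
  have AX0 := sum_ux x c u hu h (x 0)
  have AX1 := sum_ux x c u hu h (x 1)
  have AC0 := sum_uc x c u hu h (c 0)
  have AC1 := sum_uc x c u hu h (c 1)
  have R23 := R' 2 3 (by decide)
  have R24 := R' 2 4 (by decide)
  have R32 := R' 3 2 (by decide)
  have R34 := R' 3 4 (by decide)
  have R42 := R' 4 2 (by decide)
  have R43 := R' 4 3 (by decide)
  have R10 := R' 1 0 (by decide)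
  have R01 := R' 0 1 (by decide)
  have D0 := Rd 0
  have D1 := Rd 1
  have D2 := Rd 2
  have D3 := Rd 3
  have D4 := Rd 4
  clear R R' Rd
  simp only [Fin.sum_univ_five, sqd_self, cx 1 0, cx 2 0, cx 3 0, cx 4 0, cx 2 1, cx 3 1, cx 4 1,
    cx 3 2, cx 4 2, cx 4 3, cc 1 0, cc 2 0, cc 3 0, cc 4 0, cc 2 1, cc 3 1, cc 4 1,
    cc 3 2, cc 4 2, cc 4 3] at A AX0 AX1 AC0 AC1 R23 R24 R32 R34 R42 R43 R10 R01 D0 D1 D2 D3 D4
  clear cx cc
  have s1 := closure (sqd (x 3) (x 4)) (sqd (x 2) (x 4)) (sqd (x 2) (x 3))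
    (sqd (c 3) (c 4) * u 3 * u 4) (sqd (c 2) (c 4) * u 2 * u 4) (sqd (c 2) (c 3) * u 2 * u 3)
    1 (sqd (x 0) (x 2)) (sqd (x 1) (x 2))
    1 (sqd (x 0) (x 3)) (sqd (x 1) (x 3))
    1 (sqd (x 0) (x 4)) (sqd (x 1) (x 4))
    (-2 * u 2) (sqd (c 0) (c 2) * u 0 * u 2) (sqd (c 1) (c 2) * u 1 * u 2)
    (-2 * u 3) (sqd (c 0) (c 3) * u 0 * u 3) (sqd (c 1) (c 3) * u 1 * u 3)
    (-2 * u 4) (sqd (c 0) (c 4) * u 0 * u 4) (sqd (c 1) (c 4) * u 1 * u 4)
    (by linear_combination D2) (by linear_combination u 3 * R23)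
    (by linear_combination u 4 * R24) (by linear_combination u 2 * R32)
    (by linear_combination D3) (by linear_combination u 4 * R34)
    (by linear_combination u 2 * R42) (by linear_combination u 3 * R43)
    (by linear_combination D4)
    (2 * (u 0 + u 1)) (-2 * (1 - u 1 * sqd (x 0) (x 1))) (-2 * (1 - u 0 * sqd (x 0) (x 1)))
    (u 0 * (1 - u 1 * sqd (c 0) (c 1)))
    (2 * u 0 + 1 - u 0 * u 1 * (sqd (x 0) (x 1) * sqd (c 0) (c 1)))
    (2 * u 0)
    (u 1 * (1 - u 0 * sqd (c 0) (c 1))) (2 * u 1)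
    (2 * u 1 + 1 - u 0 * u 1 * (sqd (x 0) (x 1) * sqd (c 0) (c 1)))
    (by linear_combination (-2 : ℝ) * A) (by linear_combination (-2 : ℝ) * AX0)
    (by linear_combination (-2 : ℝ) * AX1)
    (by linear_combination u 0 * AC0) (by linear_combination D0)
    (by linear_combination u 0 * R10)
    (by linear_combination u 1 * AC1) (by linear_combination u 1 * R01)
    (by linear_combination D1)
  linear_combination s1

/-- the case `u 0, u 1 < 0` is impossible. -/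
theorem not_both_neg (h0 : u 0 < 0) (h1 : u 1 < 0) : False := by
  have hs := star x c u hu h
  have hX4 : sqd (x 0) (x 1) ≤ 4 := sqd_le_four _ _ (c 2) (h 2 0 (by decide)) (h 2 1 (by decide))
  have hC4 : sqd (c 0) (c 1) ≤ 4 := sqd_le_four _ _ (x 2)
    ((sqd_comm _ _).trans (h 0 2 (by decide))) ((sqd_comm _ _).trans (h 1 2 (by decide)))
  have hX0 := sqd_nonneg (x 0) (x 1)
  have hC0 := sqd_nonneg (c 0) (c 1)
  have hpos : 0 < u 0 * u 1 := mul_pos_of_neg_of_neg h0 h1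
  have hneg : sqd (x 0) (x 1) * sqd (c 0) (c 1) - 4 * sqd (c 0) (c 1)
      - 4 * sqd (x 0) (x 1) ≤ 0 := by
    nlinarith [mul_nonneg hC0 (sub_nonneg.2 hX4)]
  have := mul_nonpos_of_nonneg_of_nonpos (by positivity : (0:ℝ) ≤ 4 * (u 0 * u 1)) hneg
  linarith

end

/-- Core statement in coordinates: five distinct unit spheres, every four of them meeting, meet. -/
theorem core (x c : Fin 5 → Fin 3 → ℝ) (h : ∀ j k, j ≠ k → sqd (x k) (c j) = 1) :
    ∃ j, sqd (x j) (c j) = 1 := by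
  by_contra hcon
  push Not at hcon
  have hπ : ∀ j, sqd (x j) (c j) - 1 ≠ 0 := fun j => sub_ne_zero.2 (hcon j)
  set u : Fin 5 → ℝ := fun j => (sqd (x j) (c j) - 1)⁻¹ with hudef
  have hu : ∀ j, u j * (sqd (x j) (c j) - 1) = 1 := fun j => inv_mul_cancel₀ (hπ j)
  obtain ⟨i, j, hij, hi, hj⟩ := two_neg x c u hu h
  obtain ⟨σ, hσ0, hσ1⟩ : ∃ σ : Equiv.Perm (Fin 5), σ 0 = i ∧ σ 1 = j := by
    have hne : Equiv.swap 0 i j ≠ 0 := by
      intro h0
      have : j = i := by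
        rw [Equiv.swap_apply_eq_iff] at h0
        simpa using h0
      exact hij this.symm
    refine ⟨Equiv.swap 0 i * Equiv.swap 1 (Equiv.swap 0 i j), ?_, ?_⟩
    · rw [Equiv.Perm.mul_apply, Equiv.swap_apply_of_ne_of_ne (by decide) hne.symm,
        Equiv.swap_apply_left]
    · rw [Equiv.Perm.mul_apply, Equiv.swap_apply_left, Equiv.swap_apply_self]
  exact not_both_neg (fun k => x (σ k)) (fun k => c (σ k)) (fun k => u (σ k))
    (fun k => hu (σ k)) (fun a b hab => h (σ a) (σ b) (fun e => hab (σ.injective e)))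
    (by simpa [hσ0] using hi) (by simpa [hσ1] using hj)

end Pool.Agent.Q8.Maehara
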